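import Mathlib

namespace Pool.Agent.Lib.MP_b2463a_co.Log

open Finset

open Classical in
/-- the fibre form of a key function. -/
noncomputable def Bf {α T : Type*} [Fintype α] (κ : α → T) (u v : α → ℝ) : ℝ :=
  ∑ a, ∑ b, if κ a = κ b then u a * v b else 0

open Classical in
lemma Bf_eq {α T : Type*} [Fintype α] (κ : α → T) (u v : α → ℝ) :
    Bf κ u v = ∑ t ∈ univ.image κ,
      (∑ a, if κ a = t then u a else 0) * (∑ b, if κ b = t then v b else 0) := by
  unfold Bf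
  simp only [Finset.sum_mul_sum]
  rw [Finset.sum_comm (s := univ.image κ)]
  refine Finset.sum_congr rfl fun a _ => ?_
  rw [Finset.sum_comm (s := univ.image κ)]
  refine Finset.sum_congr rfl fun b _ => ?_
  rw [Finset.sum_eq_single (κ a)]
  · by_cases h : κ a = κ b
    · simp [h]
    · have h' : ¬ κ b = κ a := fun e => h e.symm
      simp [h, h']
  · intro t _ ht
    have : ¬ κ a = t := fun e => ht e.symm
    simp [this]
  · intro h
    exact absurd (Finset.mem_image_of_mem κ (Finset.mem_univ a)) h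

lemma Bf_nonneg {α T : Type*} [Fintype α] (κ : α → T) (u : α → ℝ) : 0 ≤ Bf κ u u := by
  rw [Bf_eq]
  exact Finset.sum_nonneg fun t _ => mul_self_nonneg _

lemma Bf_cs {α T : Type*} [Fintype α] (κ : α → T) (u v : α → ℝ) :
    Bf κ u v ^ 2 ≤ Bf κ u u * Bf κ v v := by
  rw [Bf_eq, Bf_eq, Bf_eq]
  simp only [← sq]
  exact Finset.sum_mul_sq_le_sq_mul_sq _ _ _

variable {ι V : Type*} [Fintype ι] [AddCommGroup V]

open Classical in
/-- weighted additive energy. -/
noncomputable def E (x : ι → V) (f1 f2 f3 f4 : ι → ℝ) : ℝ :=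
  ∑ a, ∑ b, ∑ c, ∑ d, if x a + x b = x c + x d then f1 a * f2 b * f3 c * f4 d else 0

open Classical in
lemma E_plus (x : ι → V) (f1 f2 f3 f4 : ι → ℝ) :
    E x f1 f2 f3 f4 = Bf (fun p : ι × ι => x p.1 + x p.2) (fun p => f1 p.1 * f2 p.2)
      (fun p => f3 p.1 * f4 p.2) := by
  unfold E Bf
  simp only [Fintype.sum_prod_type, mul_assoc]

open Classical in
lemma E_minus (x : ι → V) (f1 f2 f3 f4 : ι → ℝ) :
    E x f1 f2 f3 f4 = Bf (fun p : ι × ι => x p.1 - x p.2) (fun p => f1 p.1 * f3 p.2)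
      (fun p => f4 p.1 * f2 p.2) := by
  unfold E Bf
  simp only [Fintype.sum_prod_type]
  refine Finset.sum_congr rfl fun a _ => ?_
  rw [Finset.sum_comm]
  refine Finset.sum_congr rfl fun c _ => ?_
  rw [Finset.sum_comm]
  refine Finset.sum_congr rfl fun d _ => Finset.sum_congr rfl fun b _ => ?_
  have : x a + x b = x c + x d ↔ x a - x c = x d - x b := by
    rw [sub_eq_sub_iff_add_eq_add, add_comm (x d)]
  by_cases h : x a + x b = x c + x d
  · rw [if_pos h, if_pos (this.1 h)]; ring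
  · rw [if_neg h, if_neg (fun e => h (this.2 e))]

lemma E_nonneg (x : ι → V) (f g : ι → ℝ) : 0 ≤ E x f g f g := by
  rw [E_plus]; exact Bf_nonneg _ _

lemma E_cs1 (x : ι → V) (f1 f2 f3 f4 : ι → ℝ) :
    E x f1 f2 f3 f4 ^ 2 ≤ E x f1 f2 f1 f2 * E x f3 f4 f3 f4 := by
  rw [E_plus, E_plus, E_plus]; exact Bf_cs _ _ _

lemma E_cs2 (x : ι → V) (f g : ι → ℝ) :
    E x f g f g ^ 2 ≤ E x f f f f * E x g g g g := by
  rw [E_minus, E_minus, E_minus]; exact Bf_cs _ _ _

lemma E_le (x : ι → V) (f1 f2 f3 f4 : ι → ℝ) (A1 A2 A3 A4 : ℝ)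
    (p1 : 0 ≤ A1) (p2 : 0 ≤ A2) (p3 : 0 ≤ A3)
    (h1 : E x f1 f1 f1 f1 ≤ A1) (h2 : E x f2 f2 f2 f2 ≤ A2)
    (h3 : E x f3 f3 f3 f3 ≤ A3) (h4 : E x f4 f4 f4 f4 ≤ A4) (B : ℝ) (hB : 0 ≤ B)
    (hAB : A1 * A2 * (A3 * A4) ≤ B ^ 4) : E x f1 f2 f3 f4 ≤ B := by
  have a1 := E_cs1 x f1 f2 f3 f4
  have a2 := E_cs2 x f1 f2
  have a3 := E_cs2 x f3 f4
  have b2 : E x f1 f2 f1 f2 ^ 2 ≤ A1 * A2 :=
    a2.trans (mul_le_mul h1 h2 (E_nonneg x f2 f2) p1)
  have b3 : E x f3 f4 f3 f4 ^ 2 ≤ A3 * A4 :=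
    a3.trans (mul_le_mul h3 h4 (E_nonneg x f4 f4) p3)
  have c1 : (E x f1 f2 f3 f4 ^ 2) ^ 2 ≤ (E x f1 f2 f1 f2 * E x f3 f4 f3 f4) ^ 2 :=
    pow_le_pow_left₀ (sq_nonneg _) a1 2
  have c2 : E x f1 f2 f3 f4 ^ 4 ≤ B ^ 4 := by
    calc E x f1 f2 f3 f4 ^ 4 = (E x f1 f2 f3 f4 ^ 2) ^ 2 := by ring
      _ ≤ E x f1 f2 f1 f2 ^ 2 * E x f3 f4 f3 f4 ^ 2 := by rw [← mul_pow]; exact c1
      _ ≤ A1 * A2 * (A3 * A4) := mul_le_mul b2 b3 (sq_nonneg _) (mul_nonneg p1 p2)
      _ ≤ B ^ 4 := hAB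
  exact le_of_pow_le_pow_left₀ (by norm_num) hB c2

open Classical in
/-- sum over the nondegenerate additive quadruples. -/
noncomputable def Rs (x : ι → V) (F : ι → ι → ι → ι → ℝ) : ℝ :=
  ∑ a, ∑ b, ∑ c, ∑ d, if x a + x b = x c + x d ∧ a ≠ c ∧ a ≠ d then F a b c d else 0

lemma Rs_mono (x : ι → V) (F F' : ι → ι → ι → ι → ℝ)
    (h : ∀ a b c d, x a + x b = x c + x d → a ≠ c → a ≠ d → F a b c d ≤ F' a b c d) :
    Rs x F ≤ Rs x F' := by
  unfold Rs
  refine Finset.sum_le_sum fun a _ => Finset.sum_le_sum fun b _ =>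
    Finset.sum_le_sum fun c _ => Finset.sum_le_sum fun d _ => ?_
  split_ifs with hc
  · exact h a b c d hc.1 hc.2.1 hc.2.2
  · exact le_rfl

lemma Rs_add (x : ι → V) (F F' : ι → ι → ι → ι → ℝ) :
    Rs x (fun a b c d => F a b c d + F' a b c d) = Rs x F + Rs x F' := by
  unfold Rs
  simp only [← Finset.sum_add_distrib]
  refine Finset.sum_congr rfl fun a _ => Finset.sum_congr rfl fun b _ =>
    Finset.sum_congr rfl fun c _ => Finset.sum_congr rfl fun d _ => ?_
  split_ifs <;> simp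

lemma Rs_mul (x : ι → V) (r : ℝ) (F : ι → ι → ι → ι → ℝ) :
    Rs x (fun a b c d => r * F a b c d) = r * Rs x F := by
  unfold Rs
  simp only [Finset.mul_sum]
  refine Finset.sum_congr rfl fun a _ => Finset.sum_congr rfl fun b _ =>
    Finset.sum_congr rfl fun c _ => Finset.sum_congr rfl fun d _ => ?_
  split_ifs <;> simp

open Classical in
lemma Rs_swap (x : ι → V) (F : ι → ι → ι → ι → ℝ) :
    Rs x (fun a b c d => F a b d c) = Rs x F := by
  unfold Rs
  refine Finset.sum_congr rfl fun a _ => Finset.sum_congr rfl fun b _ => ?_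
  rw [Finset.sum_comm]
  refine Finset.sum_congr rfl fun c _ => Finset.sum_congr rfl fun d _ => ?_
  have : (x a + x b = x d + x c ∧ a ≠ d ∧ a ≠ c) ↔ (x a + x b = x c + x d ∧ a ≠ c ∧ a ≠ d) := by
    rw [add_comm (x d)]; tauto
  exact if_congr this rfl rfl

lemma Rs_le_E (x : ι → V) (f1 f2 f3 f4 : ι → ℝ) (h1 : ∀ a, 0 ≤ f1 a) (h2 : ∀ a, 0 ≤ f2 a)
    (h3 : ∀ a, 0 ≤ f3 a) (h4 : ∀ a, 0 ≤ f4 a) :
    Rs x (fun a b c d => f1 a * f2 b * f3 c * f4 d) ≤ E x f1 f2 f3 f4 := by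
  unfold Rs E
  refine Finset.sum_le_sum fun a _ => Finset.sum_le_sum fun b _ =>
    Finset.sum_le_sum fun c _ => Finset.sum_le_sum fun d _ => ?_
  have := mul_nonneg (mul_nonneg (mul_nonneg (h1 a) (h2 b)) (h3 c)) (h4 d)
  by_cases hc : x a + x b = x c + x d ∧ a ≠ c ∧ a ≠ d
  · rw [if_pos hc, if_pos hc.1]
  · rw [if_neg hc]
    split_ifs
    · exact this
    · exact le_rfl

open Classical in
lemma sum_diag (W : ι → ι → ℝ) :
    (∑ a, ∑ b, ∑ c, ∑ d, if a = c ∧ b = d then W a b else 0) = ∑ a, ∑ b, W a b := by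
  refine Finset.sum_congr rfl fun a _ => Finset.sum_congr rfl fun b _ => ?_
  simp only [ite_and, Finset.sum_ite_irrel, Finset.sum_ite_eq, Finset.mem_univ, if_true,
    Finset.sum_const_zero]

open Classical in
lemma sum_diag' (W : ι → ι → ℝ) :
    (∑ a, ∑ b, ∑ c, ∑ d, if a = d ∧ b = c then W a b else 0) = ∑ a, ∑ b, W a b := by
  rw [← sum_diag W]
  refine Finset.sum_congr rfl fun a _ => Finset.sum_congr rfl fun b _ => ?_
  rw [Finset.sum_comm]

open Classical in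
lemma E_le_Rs (x : ι → V) (hx : Function.Injective x) (f : ι → ℝ) :
    E x f f f f ≤ Rs x (fun a b c d => f a * f b * f c * f d) + 2 * (∑ a, f a ^ 2) ^ 2 := by
  have e : (∑ a, f a ^ 2) ^ 2 = ∑ a, ∑ b, f a ^ 2 * f b ^ 2 := by
    rw [sq, Finset.sum_mul_sum]
  rw [two_mul]
  nth_rewrite 1 [e]
  rw [e]
  nth_rewrite 1 [← sum_diag (fun a b => f a ^ 2 * f b ^ 2)]
  rw [← sum_diag' (fun a b => f a ^ 2 * f b ^ 2)]
  unfold Rs E
  simp only [← Finset.sum_add_distrib]
  refine Finset.sum_le_sum fun a _ => Finset.sum_le_sum fun b _ =>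
    Finset.sum_le_sum fun c _ => Finset.sum_le_sum fun d _ => ?_
  have hp : 0 ≤ f a ^ 2 * f b ^ 2 := by positivity
  have n1 : 0 ≤ (if a = c ∧ b = d then f a ^ 2 * f b ^ 2 else 0) := by split_ifs <;> simp [hp]
  have n2 : 0 ≤ (if a = d ∧ b = c then f a ^ 2 * f b ^ 2 else 0) := by split_ifs <;> simp [hp]
  by_cases h : x a + x b = x c + x d
  · rw [if_pos h]
    by_cases h1 : a = c
    · have h2 : b = d := hx (by rw [h1] at h; exact add_left_cancel h)
      rw [if_neg (by tauto), if_pos ⟨h1, h2⟩]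
      have e2 : f a * f b * f c * f d = f a ^ 2 * f b ^ 2 := by rw [← h1, ← h2]; ring
      linarith
    · by_cases h2 : a = d
      · have h3 : b = c := hx (by rw [h2, add_comm (x c)] at h; exact add_left_cancel h)
        rw [if_neg (by tauto), if_neg (by tauto), if_pos ⟨h2, h3⟩]
        rw [← h2, ← h3]
        nlinarith
      · rw [if_pos ⟨h, h1, h2⟩]
        linarith
  · rw [if_neg h, if_neg (by tauto)]
    linarith

open Classical in
lemma Rs_psd (x : ι → V) (hx : Function.Injective x) (W : ι → ι → ℝ) :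
    -(∑ a, ∑ c, W a c ^ 2) ≤ Rs x (fun a b c d => W a c * W d b) := by
  have h0 := Bf_nonneg (fun p : ι × ι => x p.1 - x p.2)
    (fun p => if p.1 = p.2 then 0 else W p.1 p.2)
  have h1 : Bf (fun p : ι × ι => x p.1 - x p.2) (fun p => if p.1 = p.2 then 0 else W p.1 p.2)
      (fun p => if p.1 = p.2 then 0 else W p.1 p.2) ≤
      Rs x (fun a b c d => W a c * W d b) + ∑ a, ∑ c, W a c ^ 2 := by
    rw [← sum_diag' (fun a b => W a b ^ 2)]
    unfold Bf Rs
    simp only [Fintype.sum_prod_type, ← Finset.sum_add_distrib]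
    refine Finset.sum_le_sum fun a _ => ?_
    rw [Finset.sum_comm (f := fun b c => ∑ d, ((if x a + x b = x c + x d ∧ a ≠ c ∧ a ≠ d then
      W a c * W d b else 0) + if a = d ∧ b = c then W a b ^ 2 else 0))]
    refine Finset.sum_le_sum fun c _ => ?_
    rw [Finset.sum_comm]
    refine Finset.sum_le_sum fun b _ => Finset.sum_le_sum fun d _ => ?_
    have n2 : 0 ≤ (if a = d ∧ b = c then W a b ^ 2 else 0) := by
      split_ifs
      · exact sq_nonneg _
      · exact le_rfl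
    have hi : x a + x b = x c + x d ↔ x a - x c = x d - x b := by
      rw [sub_eq_sub_iff_add_eq_add, add_comm (x d)]
    by_cases h : x a - x c = x d - x b
    · rw [if_pos h]
      by_cases h1 : a = c
      · rw [if_pos h1, zero_mul, if_neg (by tauto)]
        linarith
      · have h2 : ¬ d = b := by
          intro e
          rw [e, sub_self, sub_eq_zero] at h
          exact h1 (hx h)
        rw [if_neg h1, if_neg h2]
        by_cases h3 : a = d
        · have h4 : b = c := by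
            rw [h3] at h
            exact (hx (sub_right_injective h)).symm
          rw [if_neg (by tauto), if_pos ⟨h3, h4⟩, ← h3, h4]
          nlinarith
        · rw [if_pos ⟨hi.2 h, h1, h3⟩]
          linarith
    · rw [if_neg h, if_neg (fun e => h (hi.1 e.1))]
      linarith
  linarith

end Pool.Agent.Lib.MP_b2463a_co.Log
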