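import Mathlib

namespace Pool.Agent.Lib.MP_b2463a_co.Log

open Finset

lemma sqrt_four (t1 t2 t3 t4 S : ℝ) (hS : S = t1 ^ 2 + t2 ^ 2 + t3 ^ 2 + t4 ^ 2) (h : S ≤ 1 / 2) :
    2 + (t1 + t2 + t3 + t4) ^ 2 / 4 - S / 2 - S ^ 2 ≤
      √(1 + t1) * √(1 + t2) * √(1 + t3) * √(1 + t4) +
        √(1 - t1) * √(1 - t2) * √(1 - t3) * √(1 - t4) := by
  have q1 := sq_nonneg t1
  have q2 := sq_nonneg t2
  have q3 := sq_nonneg t3
  have q4 := sq_nonneg t4
  have b : ∀ t : ℝ, t ^ 2 ≤ 1 / 2 → 0 ≤ 1 + t ∧ 0 ≤ 1 - t := fun t ht => by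
    constructor <;> nlinarith
  obtain ⟨a1, b1⟩ := b t1 (by linarith)
  obtain ⟨a2, b2⟩ := b t2 (by linarith)
  obtain ⟨a3, b3⟩ := b t3 (by linarith)
  obtain ⟨a4, b4⟩ := b t4 (by linarith)
  set X := √(1 + t1) * √(1 + t2) * √(1 + t3) * √(1 + t4) with hX
  set Y := √(1 - t1) * √(1 - t2) * √(1 - t3) * √(1 - t4) with hY
  have X0 : 0 ≤ X := by positivity
  have Y0 : 0 ≤ Y := by positivity
  have X2 : X ^ 2 = (1 + t1) * (1 + t2) * (1 + t3) * (1 + t4) := by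
    rw [hX, mul_pow, mul_pow, mul_pow, Real.sq_sqrt a1, Real.sq_sqrt a2, Real.sq_sqrt a3,
      Real.sq_sqrt a4]
  have Y2 : Y ^ 2 = (1 - t1) * (1 - t2) * (1 - t3) * (1 - t4) := by
    rw [hY, mul_pow, mul_pow, mul_pow, Real.sq_sqrt b1, Real.sq_sqrt b2, Real.sq_sqrt b3,
      Real.sq_sqrt b4]
  have S0 : 0 ≤ S := by linarith
  have P : 1 - S ≤ (X * Y) ^ 2 := by
    have e : (X * Y) ^ 2 = ((1 - t1 ^ 2) * (1 - t2 ^ 2)) * ((1 - t3 ^ 2) * (1 - t4 ^ 2)) := by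
      rw [mul_pow, X2, Y2]; ring
    have c1 : 1 - (t1 ^ 2 + t2 ^ 2) ≤ (1 - t1 ^ 2) * (1 - t2 ^ 2) := by
      nlinarith [mul_nonneg q1 q2]
    have c2 : 1 - (t3 ^ 2 + t4 ^ 2) ≤ (1 - t3 ^ 2) * (1 - t4 ^ 2) := by
      nlinarith [mul_nonneg q3 q4]
    have c3 := mul_le_mul c1 c2 (by linarith) (by linarith)
    rw [e]
    nlinarith [mul_nonneg (add_nonneg q1 q2) (add_nonneg q3 q4)]
  have P2 : 1 - S / 2 - S ^ 2 / 2 ≤ X * Y := by
    refine le_of_sq_le_sq (le_trans ?_ P) (mul_nonneg X0 Y0)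
    have : 0 ≤ S ^ 2 * (3 / 4 - S / 2 - S ^ 2 / 4) := mul_nonneg (sq_nonneg _) (by nlinarith)
    nlinarith
  set T := t1 + t2 + t3 + t4 with hT
  have hT2 : T ^ 2 ≤ 4 * S := by
    rw [hS, hT]
    nlinarith [sq_nonneg (t1 - t2), sq_nonneg (t1 - t3), sq_nonneg (t1 - t4), sq_nonneg (t2 - t3),
      sq_nonneg (t2 - t4), sq_nonneg (t3 - t4)]
  have hAB : X ^ 2 + Y ^ 2 = 2 + (T ^ 2 - S) + 2 * (t1 * t2 * (t3 * t4)) := by
    rw [X2, Y2, hS, hT]; ring
  have he : -(S ^ 2 / 4) ≤ t1 * t2 * (t3 * t4) := by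
    have c1 : |t1 * t2| ≤ S / 2 := abs_le.2 ⟨by nlinarith [sq_nonneg (t1 + t2)],
      by nlinarith [sq_nonneg (t1 - t2)]⟩
    have c2 : |t3 * t4| ≤ S / 2 := abs_le.2 ⟨by nlinarith [sq_nonneg (t3 + t4)],
      by nlinarith [sq_nonneg (t3 - t4)]⟩
    have c3 : |t1 * t2 * (t3 * t4)| ≤ S / 2 * (S / 2) := by
      rw [abs_mul]; exact mul_le_mul c1 c2 (abs_nonneg _) (by linarith)
    have := (abs_le.1 c3).1
    nlinarith
  refine le_of_sq_le_sq ?_ (add_nonneg X0 Y0)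
  set w := T ^ 2 / 4 - S / 2 - S ^ 2 with hw
  have w1 : w ≤ S := by nlinarith [sq_nonneg S]
  have w2 : -S ≤ w := by nlinarith [sq_nonneg T]
  have w3 : w ^ 2 ≤ S ^ 2 := sq_le_sq' w2 w1
  have e1 : (2 + T ^ 2 / 4 - S / 2 - S ^ 2) ^ 2 = 4 + 4 * w + w ^ 2 := by rw [hw]; ring
  have e2 : (X + Y) ^ 2 = X ^ 2 + Y ^ 2 + 2 * (X * Y) := by ring
  rw [e1, e2, hAB]
  nlinarith [sq_nonneg S]

lemma sqrt_gain (F U σ : ℝ) (hF : F ≤ 1) (hU : |U| ≤ F) (h0 : 0 ≤ σ) (h1 : σ ≤ 1)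
    (h : σ * F ≤ |U|) : √(F + U) + √(F - U) ≤ 2 * √F - σ ^ 2 * F / 4 := by
  obtain ⟨u1, u2⟩ := abs_le.1 hU
  have F0 : 0 ≤ F := (abs_nonneg U).trans hU
  have X2 : √(F + U) ^ 2 = F + U := Real.sq_sqrt (by linarith)
  have Y2 : √(F - U) ^ 2 = F - U := Real.sq_sqrt (by linarith)
  have r2 : √F ^ 2 = F := Real.sq_sqrt F0
  have r0 : 0 ≤ √F := Real.sqrt_nonneg _
  have r1 : F ≤ √F := by
    refine le_of_sq_le_sq ?_ r0
    rw [r2]; nlinarith
  set X := √(F + U)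
  set Y := √(F - U)
  set r := √F
  have s1 : σ ^ 2 ≤ 1 := by nlinarith
  have hU2 : (σ * F) ^ 2 ≤ U ^ 2 := by
    rw [← sq_abs U]; exact pow_le_pow_left₀ (mul_nonneg h0 F0) h 2
  have XY : X * Y ≤ F * (1 - σ ^ 2 / 2) := by
    refine le_of_sq_le_sq ?_ (mul_nonneg F0 (by linarith))
    rw [mul_pow, X2, Y2]
    nlinarith [sq_nonneg (F * σ ^ 2)]
  have S : X + Y ≤ r * (2 - σ ^ 2 / 4) := by
    refine le_of_sq_le_sq ?_ (mul_nonneg r0 (by linarith))
    have e : (X + Y) ^ 2 = X ^ 2 + Y ^ 2 + 2 * (X * Y) := by ring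
    rw [e, X2, Y2, mul_pow, r2]
    nlinarith [mul_nonneg F0 (sq_nonneg (σ ^ 2))]
  nlinarith [mul_le_mul_of_nonneg_left r1 (sq_nonneg σ)]

lemma negMulLog_le (x : ℝ) (hx : 0 < x) : Real.negMulLog x ≤ 2 * (√x - x) := by
  have r0 : 0 < √x := Real.sqrt_pos.2 hx
  have r2 : √x * √x = x := Real.mul_self_sqrt hx.le
  have l1 : Real.log x = 2 * Real.log √x := by
    rw [Real.log_sqrt hx.le]; ring
  have l2 := Real.one_sub_inv_le_log_of_pos r0
  have l3 : x * (√x)⁻¹ = √x := by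
    field_simp
    linarith
  rw [Real.negMulLog, l1]
  nlinarith [mul_le_mul_of_nonneg_left l2 hx.le]

lemma entropy_gain (p t : ℝ) (hp : 0 ≤ p) (ht : |t| ≤ 1 / 2) :
    Real.negMulLog (p * (1 + t)) + Real.negMulLog (p * (1 - t)) ≤
      2 * Real.negMulLog p - p * t ^ 2 / 2 := by
  obtain ⟨t1, t2⟩ := abs_le.1 ht
  have a := negMulLog_le (1 + t) (by linarith)
  have b := negMulLog_le (1 - t) (by linarith)
  have c := sqrt_gain 1 t |t| le_rfl (by linarith) (abs_nonneg t) (by linarith) (by simp)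
  rw [Real.sqrt_one, sq_abs] at c
  rw [Real.negMulLog_mul, Real.negMulLog_mul]
  have d : Real.negMulLog (1 + t) + Real.negMulLog (1 - t) ≤ -(t ^ 2 / 2) := by linarith
  nlinarith [mul_le_mul_of_nonneg_left d hp]

lemma grid_step (a h y : ℝ) (hh : 0 ≤ h) (hy : 0 ≤ y) :
    (min (max (a + h) 0) y ^ 3 / 3 - if y < a + h then h * y ^ 2 else 0) -
      (min (max a 0) y ^ 3 / 3 - if y < a then h * y ^ 2 else 0) ≤
      h * (if a + h ≤ y then max (a + h) 0 ^ 2 else 0) := by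
  have key : ∀ u v : ℝ, 0 ≤ v → v ≤ u → u ≤ v + h → u ^ 3 / 3 - v ^ 3 / 3 ≤ h * u ^ 2 := by
    intro u v v0 vu uv
    have e : u ^ 3 / 3 - v ^ 3 / 3 = (u - v) * ((u ^ 2 + u * v + v ^ 2) / 3) := by ring
    rw [e]
    exact mul_le_mul (by linarith) (by nlinarith) (by have := v0.trans vu; positivity) hh
  by_cases h1 : a + h ≤ y
  · have h2 : a ≤ y := by linarith
    rw [if_pos h1, if_neg (not_lt.2 h1), if_neg (not_lt.2 h2), min_eq_left (max_le h1 hy),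
      min_eq_left (max_le h2 hy)]
    have := key (max (a + h) 0) (max a 0) (le_max_right _ _)
      (max_le_max (by linarith) le_rfl)
      (max_le (by linarith [le_max_left a 0]) (by linarith [le_max_right a 0]))
    linarith
  · have h1' : y < a + h := not_le.1 h1
    rw [if_neg h1, if_pos h1', min_eq_right (h1'.le.trans (le_max_left _ _))]
    by_cases h2 : y < a
    · rw [if_pos h2, min_eq_right (h2.le.trans (le_max_left _ _))]
      simp
    · have h2' : a ≤ y := not_lt.1 h2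
      rw [if_neg h2, min_eq_left (max_le h2' hy)]
      have := key y (max a 0) (le_max_right _ _) (max_le h2' hy)
        (by linarith [le_max_left a 0])
      linarith

lemma grid_sum (a h y : ℝ) (N : ℕ) (hh : 0 ≤ h) (ha : a ≤ 0) (hN : y ≤ a + N * h) :
    max y 0 ^ 3 / 3 - h * y ^ 2 ≤
      ∑ j ∈ range N, h * (if a + (j + 1) * h ≤ y then max (a + (j + 1) * h) 0 ^ 2 else 0) := by
  rcases le_or_gt 0 y with hy | hy
  · set c : ℕ → ℝ := fun j =>
      min (max (a + j * h) 0) y ^ 3 / 3 - if y < a + j * h then h * y ^ 2 else 0 with hc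
    have h1 : ∑ j ∈ range N, (c (j + 1) - c j) ≤
        ∑ j ∈ range N, h * (if a + (j + 1) * h ≤ y then max (a + (j + 1) * h) 0 ^ 2 else 0) := by
      refine Finset.sum_le_sum fun j _ => ?_
      have := grid_step (a + j * h) h y hh hy
      have e : a + j * h + h = a + (j + 1) * h := by ring
      rw [e] at this
      simp only [hc]
      push_cast
      exact this
    rw [Finset.sum_range_sub] at h1
    have h2 : c 0 = 0 := by
      simp only [hc, Nat.cast_zero, zero_mul, add_zero]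
      rw [max_eq_right ha, min_eq_left hy, if_neg (not_lt.2 (ha.trans hy))]
      simp
    have h3 : y ^ 3 / 3 - h * y ^ 2 ≤ c N := by
      simp only [hc]
      rw [min_eq_right (hN.trans (le_max_left _ _))]
      split_ifs
      · exact le_rfl
      · nlinarith [mul_nonneg hh (sq_nonneg y)]
    rw [max_eq_left hy]
    linarith
  · rw [max_eq_right hy.le]
    have : 0 ≤ ∑ j ∈ range N,
        h * (if a + (j + 1) * h ≤ y then max (a + (j + 1) * h) 0 ^ 2 else 0) :=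
      Finset.sum_nonneg fun j _ => mul_nonneg hh (by split_ifs <;> positivity)
    nlinarith [mul_nonneg hh (sq_nonneg y)]

end Pool.Agent.Lib.MP_b2463a_co.Log
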