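import Mathlib

namespace Pool.Agent.Lib.MP_b2463a_co.Log

/-- dot product in coordinates. -/
def dot (u v : Fin 3 → ℝ) : ℝ := u 0 * v 0 + u 1 * v 1 + u 2 * v 2

lemma dot_self_nonneg (u : Fin 3 → ℝ) : 0 ≤ dot u u := by
  unfold dot; nlinarith [mul_self_nonneg (u 0), mul_self_nonneg (u 1), mul_self_nonneg (u 2)]

lemma dot_self_pos (u : Fin 3 → ℝ) (h : u ≠ 0) : 0 < dot u u := by
  refine lt_of_le_of_ne (dot_self_nonneg u) fun e => h ?_
  unfold dot at e
  have h0 := mul_self_nonneg (u 0)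
  have h1 := mul_self_nonneg (u 1)
  have h2 := mul_self_nonneg (u 2)
  funext i
  fin_cases i
  · exact mul_self_eq_zero.1 (by simp only [Fin.zero_eta]; linarith)
  · exact mul_self_eq_zero.1 (by simp only [Fin.mk_one]; linarith)
  · exact mul_self_eq_zero.1 (by simp only [Fin.reduceFinMk]; linarith)

lemma parseval (z s t o : Fin 3 → ℝ) (h1 : dot s t = 0) (h2 : dot s o = 0) (h3 : dot t o = 0) :
    dot s s * dot t t * dot o o * dot z z =
      dot t t * dot o o * dot z s ^ 2 + dot s s * dot o o * dot z t ^ 2 +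
        dot s s * dot t t * dot z o ^ 2 := by
  have key : (dot s s * dot t t * dot o o + 2 * dot s t * dot t o * dot s o -
      dot s s * dot t o ^ 2 - dot t t * dot s o ^ 2 - dot o o * dot s t ^ 2) * dot z z =
      (dot t t * dot o o - dot t o ^ 2) * dot z s ^ 2 +
      (dot s s * dot o o - dot s o ^ 2) * dot z t ^ 2 +
      (dot s s * dot t t - dot s t ^ 2) * dot z o ^ 2 +
      2 * (dot s o * dot t o - dot s t * dot o o) * dot z s * dot z t +
      2 * (dot s t * dot t o - dot s o * dot t t) * dot z s * dot z o +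
      2 * (dot s t * dot s o - dot s s * dot t o) * dot z t * dot z o := by
    unfold dot; ring
  rw [h1, h2, h3] at key
  linarith

/-- projection of the centred midpoint orthogonally to the difference. -/
noncomputable def Yv (m v w : Fin 3 → ℝ) : Fin 3 → ℝ := fun i =>
  (v i + w i) / 2 - m i -
    dot (fun j => (v j + w j) / 2 - m j) (v - w) / dot (v - w) (v - w) * (v i - w i)

lemma Yv_le (m v w : Fin 3 → ℝ) :
    dot (Yv m v w) (Yv m v w) ≤
      (dot (v - m) (v - m) + dot (w - m) (w - m)) / 4 + dot (v - m) (w - m) / 2 := by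
  set W : Fin 3 → ℝ := fun j => (v j + w j) / 2 - m j with hW
  set l := dot W (v - w) / dot (v - w) (v - w) with hl
  have e1 : dot (Yv m v w) (Yv m v w) =
      dot W W - 2 * l * dot W (v - w) + l ^ 2 * dot (v - w) (v - w) := by
    unfold Yv
    rw [← hW, ← hl]
    simp only [dot, hW, Pi.sub_apply]
    ring
  have e2 : dot W W =
      (dot (v - m) (v - m) + dot (w - m) (w - m)) / 4 + dot (v - m) (w - m) / 2 := by
    simp only [dot, hW, Pi.sub_apply]
    ring
  rw [e1, ← e2]
  rcases (dot_self_nonneg (v - w)).eq_or_lt with h | h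
  · have : l = 0 := by rw [hl, ← h, div_zero]
    rw [this]; simp
  · have : dot W (v - w) = l * dot (v - w) (v - w) := by rw [hl]; field_simp
    rw [this]
    nlinarith [mul_nonneg (sq_nonneg l) h.le]

lemma Yv_dot (m o s t : Fin 3 → ℝ) (hs : 0 < dot s s) (h1 : dot s t = 0) :
    dot (Yv m (o + s + t) (o - s + t)) (Yv m (o + s - t) (o - s - t)) =
      dot (o - m) (o - m) - dot (o - m) s ^ 2 / dot s s - dot t t := by
  set l := dot (o - m) s / dot s s with hl
  have a1 : dot (fun j => ((o + s + t) j + (o - s + t) j) / 2 - m j) (o + s + t - (o - s + t)) /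
      dot (o + s + t - (o - s + t)) (o + s + t - (o - s + t)) = l / 2 := by
    have b1 : dot (fun j => ((o + s + t) j + (o - s + t) j) / 2 - m j) (o + s + t - (o - s + t)) =
        2 * dot (o - m) s + 2 * dot s t := by
      simp only [dot, Pi.sub_apply, Pi.add_apply]; ring
    have b2 : dot (o + s + t - (o - s + t)) (o + s + t - (o - s + t)) = 4 * dot s s := by
      simp only [dot, Pi.sub_apply, Pi.add_apply]; ring
    rw [b1, b2, h1, hl]; field_simp; ring
  have a2 : dot (fun j => ((o + s - t) j + (o - s - t) j) / 2 - m j) (o + s - t - (o - s - t)) /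
      dot (o + s - t - (o - s - t)) (o + s - t - (o - s - t)) = l / 2 := by
    have b1 : dot (fun j => ((o + s - t) j + (o - s - t) j) / 2 - m j) (o + s - t - (o - s - t)) =
        2 * dot (o - m) s - 2 * dot s t := by
      simp only [dot, Pi.sub_apply, Pi.add_apply]; ring
    have b2 : dot (o + s - t - (o - s - t)) (o + s - t - (o - s - t)) = 4 * dot s s := by
      simp only [dot, Pi.sub_apply, Pi.add_apply]; ring
    rw [b1, b2, h1, hl]; field_simp; ring
  have a3 : dot (Yv m (o + s + t) (o - s + t)) (Yv m (o + s - t) (o - s - t)) =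
      dot (o - m) (o - m) - 2 * l * dot (o - m) s + l ^ 2 * dot s s - dot t t := by
    unfold Yv
    rw [a1, a2]
    simp only [dot, Pi.sub_apply, Pi.add_apply]
    ring
  rw [a3, hl]
  field_simp
  ring

lemma rect_aux (m o s t : Fin 3 → ℝ) (V : ℝ) (hs : 0 < dot s s) (ht : 0 < dot t t)
    (h1 : dot s t = 0) (h2 : dot s o = 0) (h3 : dot t o = 0)
    (h4 : dot o o + dot s s + dot t t = 1) (h5 : 1 / 2 ≤ dot o o) (hm : dot m m = 1 - V) :
    dot (o - m) (o - m) ≤ dot (o - m) s ^ 2 / dot s s + dot (o - m) t ^ 2 / dot t t + V ^ 2 +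
      (dot (o - m) (o - m) + dot s s + dot t t) ^ 2 := by
  set z := o - m with hz
  have ho : 0 < dot o o := by linarith
  have P := parseval z s t o h1 h2 h3
  have e : dot z z = dot z s ^ 2 / dot s s + dot z t ^ 2 / dot t t + dot z o ^ 2 / dot o o := by
    field_simp
    linarith
  have e2 : 2 * dot z o = V + (dot z z - (dot s s + dot t t)) := by
    have : 2 * dot z o = dot o o - dot m m + dot z z := by
      simp only [dot, hz, Pi.sub_apply]; ring
    linarith
  have z0 := dot_self_nonneg z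
  have e3 : dot z o ^ 2 / dot o o ≤ V ^ 2 + (dot z z + dot s s + dot t t) ^ 2 := by
    rw [div_le_iff₀ ho]
    have c1 : (dot z z - (dot s s + dot t t)) ^ 2 ≤ (dot z z + dot s s + dot t t) ^ 2 :=
      sq_le_sq' (by linarith) (by linarith)
    have c2 : 2 * dot z o ^ 2 ≤ V ^ 2 + (dot z z - (dot s s + dot t t)) ^ 2 := by
      have : dot z o = (V + (dot z z - (dot s s + dot t t))) / 2 := by linarith
      rw [this]
      nlinarith [sq_nonneg (V - (dot z z - (dot s s + dot t t)))]
    have c3 : 0 ≤ V ^ 2 + (dot z z + dot s s + dot t t) ^ 2 := by positivity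
    nlinarith [mul_le_mul_of_nonneg_left h5 c3]
  linarith

/-- the second order term of one rectangle in one coordinate. -/
noncomputable def sec (t1 t2 t3 t4 : ℝ) : ℝ :=
  (t1 + t2 + t3 + t4) ^ 2 / 4 - (t1 ^ 2 + t2 ^ 2 + t3 ^ 2 + t4 ^ 2) / 2 -
    (t1 ^ 2 + t2 ^ 2 + t3 ^ 2 + t4 ^ 2) ^ 2

lemma rect (m a b c d : Fin 3 → ℝ) (V : ℝ) (ha : dot a a = 1) (hb : dot b b = 1)
    (hc : dot c c = 1) (hd : dot d d = 1) (h : a + b = c + d) (hac : a ≠ c) (had : a ≠ d)
    (hab : dot (a - b) (a - b) ≤ 2) (hm : dot m m = 1 - V) :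
    2 * dot (Yv m a c) (Yv m d b) + 2 * dot (Yv m a d) (Yv m c b) - 2 * V ^ 2 -
      9 / 2 * ((dot (a - m) (a - m) + dot (b - m) (b - m)) *
        (dot (c - m) (c - m) + dot (d - m) (d - m))) ≤
      ∑ i, sec (a i - m i) (b i - m i) (c i - m i) (d i - m i) := by
  obtain ⟨o, s, t, rfl, rfl, rfl, rfl⟩ : ∃ o s t : Fin 3 → ℝ,
      a = o + s + t ∧ b = o - s - t ∧ c = o - s + t ∧ d = o + s - t := by
    refine ⟨fun i => (a i + b i) / 2, fun i => (a i - c i) / 2, fun i => (a i - d i) / 2,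
      ?_, ?_, ?_, ?_⟩ <;> funext i <;> have := congrFun h i <;>
      simp only [Pi.add_apply, Pi.sub_apply] at this ⊢ <;> linarith
  have hs : 0 < dot s s := dot_self_pos s (by rintro rfl; simp at hac)
  have ht : 0 < dot t t := dot_self_pos t (by rintro rfl; simp at had)
  have h1 : dot s t = 0 := by
    simp only [dot, Pi.sub_apply, Pi.add_apply] at ha hb hc hd ⊢; linarith
  have h2 : dot s o = 0 := by
    simp only [dot, Pi.sub_apply, Pi.add_apply] at ha hb hc hd ⊢; linarith
  have h3 : dot t o = 0 := by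
    simp only [dot, Pi.sub_apply, Pi.add_apply] at ha hb hc hd ⊢; linarith
  have h4 : dot o o + dot s s + dot t t = 1 := by
    simp only [dot, Pi.sub_apply, Pi.add_apply] at ha hb hc hd ⊢; linarith
  have h5 : 1 / 2 ≤ dot o o := by
    simp only [dot, Pi.sub_apply, Pi.add_apply] at hab h1 h4 ⊢; linarith
  have h1' : dot t s = 0 := by simp only [dot] at h1 ⊢; linarith
  have y1 := Yv_dot m o s t hs h1
  have y2 := Yv_dot m o t s ht h1'
  have r1 : o + t + s = o + s + t := by abel
  have r2 : o - t + s = o + s - t := by abel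
  have r3 : o + t - s = o - s + t := by abel
  have r4 : o - t - s = o - s - t := by abel
  rw [r1, r2, r3, r4] at y2
  have A := rect_aux m o s t V hs ht h1 h2 h3 h4 h5 hm
  rw [y1, y2]
  set R := dot (o - m) (o - m) + dot s s + dot t t with hR
  have u1 : dot (o + s + t - m) (o + s + t - m) + dot (o - s - t - m) (o - s - t - m) = 2 * R := by
    simp only [hR, dot, Pi.sub_apply, Pi.add_apply] at h1 ⊢; linarith
  have u2 : dot (o - s + t - m) (o - s + t - m) + dot (o + s - t - m) (o + s - t - m) = 2 * R := by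
    simp only [hR, dot, Pi.sub_apply, Pi.add_apply] at h1 ⊢; linarith
  rw [u1, u2]
  have v : ∀ i, sec ((o + s + t) i - m i) ((o - s - t) i - m i) ((o - s + t) i - m i)
      ((o + s - t) i - m i) = 2 * ((o i - m i) ^ 2 - s i ^ 2 - t i ^ 2) -
        16 * ((o i - m i) ^ 2 + s i ^ 2 + t i ^ 2) ^ 2 := by
    intro i
    simp only [sec, Pi.sub_apply, Pi.add_apply]; ring
  rw [Fin.sum_univ_three, v, v, v]
  set r0 := (o 0 - m 0) ^ 2 + s 0 ^ 2 + t 0 ^ 2 with hr0
  set r1' := (o 1 - m 1) ^ 2 + s 1 ^ 2 + t 1 ^ 2 with hr1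
  set r2' := (o 2 - m 2) ^ 2 + s 2 ^ 2 + t 2 ^ 2 with hr2
  have eR : R = r0 + r1' + r2' := by
    simp only [hR, hr0, hr1, hr2, dot, Pi.sub_apply]; ring
  have p0 : 0 ≤ r0 := by positivity
  have p1 : 0 ≤ r1' := by positivity
  have p2 : 0 ≤ r2' := by positivity
  have w : r0 ^ 2 + r1' ^ 2 + r2' ^ 2 ≤ R ^ 2 := by
    rw [eR]; nlinarith [mul_nonneg p0 p1, mul_nonneg p0 p2, mul_nonneg p1 p2]
  have w2 : ((o 0 - m 0) ^ 2 - s 0 ^ 2 - t 0 ^ 2) + ((o 1 - m 1) ^ 2 - s 1 ^ 2 - t 1 ^ 2) +
      ((o 2 - m 2) ^ 2 - s 2 ^ 2 - t 2 ^ 2) = dot (o - m) (o - m) - dot s s - dot t t := by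
    simp only [dot, Pi.sub_apply]; ring
  nlinarith

end Pool.Agent.Lib.MP_b2463a_co.Log
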