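import Mathlib
import Pool.Agent.Lib.MP_b2463a_co.Log.Form
import Pool.Agent.Lib.MP_b2463a_co.Log.Ineq
import Pool.Agent.Lib.MP_b2463a_co.Log.Rect

namespace Pool.Agent.Lib.MP_b2463a_co.Log

open Finset

variable {ι : Type*} [Fintype ι]

/-- rectangle functional on the simplex. -/
noncomputable def K (x : ι → Fin 3 → ℝ) (p : ι → ℝ) : ℝ :=
  Rs x fun a b c d => √(p a) * √(p b) * √(p c) * √(p d)

lemma Y_bound (x : ι → Fin 3 → ℝ) (hx : Function.Injective x) (p : ι → ℝ) (hp : ∀ a, 0 ≤ p a)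
    (h1 : ∑ a, p a = 1) (m : Fin 3 → ℝ) (hm : ∀ i, ∑ a, p a * (x a i - m i) = 0) :
    -((∑ a, p a * dot (x a - m) (x a - m)) / 2) ≤
      Rs x fun a b c d => √(p a) * √(p b) * √(p c) * √(p d) *
        dot (Yv m (x a) (x c)) (Yv m (x d) (x b)) := by
  set W : Fin 3 → ι → ι → ℝ := fun i a c => √(p a) * √(p c) * Yv m (x a) (x c) i with hW
  have e : (fun a b c d => √(p a) * √(p b) * √(p c) * √(p d) *
      dot (Yv m (x a) (x c)) (Yv m (x d) (x b))) =
      fun a b c d => W 0 a c * W 0 d b + W 1 a c * W 1 d b + W 2 a c * W 2 d b := by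
    funext a b c d
    simp only [hW, dot]; ring
  rw [e, Rs_add, Rs_add]
  have k0 := Rs_psd x hx (W 0)
  have k1 := Rs_psd x hx (W 1)
  have k2 := Rs_psd x hx (W 2)
  have k3 : (∑ a, ∑ c, W 0 a c ^ 2) + (∑ a, ∑ c, W 1 a c ^ 2) + (∑ a, ∑ c, W 2 a c ^ 2) ≤
      ∑ a, ∑ c, p a * p c * ((dot (x a - m) (x a - m) + dot (x c - m) (x c - m)) / 4 +
        dot (x a - m) (x c - m) / 2) := by
    simp only [← Finset.sum_add_distrib]
    refine Finset.sum_le_sum fun a _ => Finset.sum_le_sum fun c _ => ?_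
    have e2 : W 0 a c ^ 2 + W 1 a c ^ 2 + W 2 a c ^ 2 =
        p a * p c * dot (Yv m (x a) (x c)) (Yv m (x a) (x c)) := by
      simp only [hW, dot, mul_pow, Real.sq_sqrt (hp _)]; ring
    rw [e2]
    exact mul_le_mul_of_nonneg_left (Yv_le _ _ _) (mul_nonneg (hp a) (hp c))
  have k4 : (∑ a, ∑ c, p a * p c * ((dot (x a - m) (x a - m) + dot (x c - m) (x c - m)) / 4 +
        dot (x a - m) (x c - m) / 2)) = (∑ a, p a * dot (x a - m) (x a - m)) / 2 := by
    have e3 : ∀ a c, p a * p c * ((dot (x a - m) (x a - m) + dot (x c - m) (x c - m)) / 4 +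
        dot (x a - m) (x c - m) / 2) =
        (p a * dot (x a - m) (x a - m) / 4) * p c + (p a / 4) * (p c * dot (x c - m) (x c - m)) +
        (p a * (x a 0 - m 0) / 2) * (p c * (x c 0 - m 0)) +
        (p a * (x a 1 - m 1) / 2) * (p c * (x c 1 - m 1)) +
        (p a * (x a 2 - m 2) / 2) * (p c * (x c 2 - m 2)) := by
      intro a c
      have : dot (x a - m) (x c - m) = (x a 0 - m 0) * (x c 0 - m 0) +
          (x a 1 - m 1) * (x c 1 - m 1) + (x a 2 - m 2) * (x c 2 - m 2) := rfl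
      rw [this]; ring
    simp only [e3, Finset.sum_add_distrib, ← Finset.mul_sum, hm, h1, mul_zero, mul_one,
      add_zero, ← Finset.sum_mul, ← Finset.sum_div]
    ring
  linarith

lemma K_second (x : ι → Fin 3 → ℝ) (hx : Function.Injective x) (hn : ∀ a, dot (x a) (x a) = 1)
    (hab : ∀ a b, dot (x a - x b) (x a - x b) ≤ 2)
    (p : ι → ℝ) (hp : ∀ a, 0 ≤ p a) (h1 : ∑ a, p a = 1) (m : Fin 3 → ℝ)
    (hm : ∀ i, ∑ a, p a * (x a i - m i) = 0) (hy : ∀ a i, |x a i - m i| ≤ 1 / 4)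
    (L : ℝ) (hL0 : 0 ≤ L) (hL : ∀ g : ι → ℝ, (∀ a, 0 ≤ g a) → E x g g g g ≤ L * (∑ a, g a ^ 2) ^ 2) :
    6 * K x p - 2 * (∑ a, p a * dot (x a - m) (x a - m)) -
      20 * L * (∑ a, p a * dot (x a - m) (x a - m) ^ 2) ≤
      ∑ i, (K x (fun a => p a * (1 + (x a i - m i))) + K x (fun a => p a * (1 - (x a i - m i)))) := by
  set u : ι → ℝ := fun a => dot (x a - m) (x a - m) with hu
  set V := ∑ a, p a * u a with hV
  set M := ∑ a, p a * u a ^ 2 with hM
  set f : ι → ℝ := fun a => √(p a) with hf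
  have f0 : ∀ a, 0 ≤ f a := fun a => Real.sqrt_nonneg _
  have u0 : ∀ a, 0 ≤ u a := fun a => dot_self_nonneg _
  have M0 : 0 ≤ M := Finset.sum_nonneg fun a _ => mul_nonneg (hp a) (sq_nonneg _)
  have hmm : dot m m = 1 - V := by
    have e : ∀ a, p a * u a = p a * (1 - dot m m) + (-2 * m 0) * (p a * (x a 0 - m 0)) +
        (-2 * m 1) * (p a * (x a 1 - m 1)) + (-2 * m 2) * (p a * (x a 2 - m 2)) := by
      intro a
      have := hn a
      simp only [hu, dot, Pi.sub_apply] at this ⊢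
      linear_combination p a * this
    rw [hV]
    simp only [e, Finset.sum_add_distrib, ← Finset.mul_sum, hm, ← Finset.sum_mul, h1]
    ring
  have hVM : V ^ 2 ≤ M := by
    have a1 : 0 ≤ ∑ a, p a * (u a - V) ^ 2 :=
      Finset.sum_nonneg fun a _ => mul_nonneg (hp a) (sq_nonneg _)
    have e : ∀ a, p a * (u a - V) ^ 2 = p a * u a ^ 2 + (-2 * V) * (p a * u a) + V ^ 2 * p a :=
      fun a => by ring
    simp only [e, Finset.sum_add_distrib, ← Finset.mul_sum, h1] at a1
    rw [← hV, ← hM] at a1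
    nlinarith
  set g : ι → ℝ := fun a => f a * u a with hg
  have g0 : ∀ a, 0 ≤ g a := fun a => mul_nonneg (f0 a) (u0 a)
  have Ef : E x f f f f ≤ L := by
    have := hL f f0
    simp only [hf, Real.sq_sqrt (hp _), h1] at this
    simpa using this
  have Eg : E x g g g g ≤ L * M ^ 2 := by
    have := hL g g0
    simp only [hg, hf, mul_pow, Real.sq_sqrt (hp _)] at this
    exact this
  have LM : 0 ≤ L * M := mul_nonneg hL0 M0
  have LM2 : 0 ≤ L * M ^ 2 := mul_nonneg hL0 (sq_nonneg _)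
  have t1 := (Rs_le_E x g f g f g0 f0 g0 f0).trans
    (E_le x g f g f _ _ _ _ LM2 hL0 LM2 Eg Ef Eg Ef (L * M) LM (le_of_eq (by ring)))
  have t2 := (Rs_le_E x g f f g g0 f0 f0 g0).trans
    (E_le x g f f g _ _ _ _ LM2 hL0 hL0 Eg Ef Ef Eg (L * M) LM (le_of_eq (by ring)))
  have t3 := (Rs_le_E x f g g f f0 g0 g0 f0).trans
    (E_le x f g g f _ _ _ _ hL0 LM2 LM2 Ef Eg Eg Ef (L * M) LM (le_of_eq (by ring)))
  have t4 := (Rs_le_E x f g f g f0 g0 f0 g0).trans
    (E_le x f g f g _ _ _ _ hL0 LM2 hL0 Ef Eg Ef Eg (L * M) LM (le_of_eq (by ring)))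
  have t5 : K x p ≤ L := (Rs_le_E x f f f f f0 f0 f0 f0).trans Ef
  set F : ι → ι → ι → ι → ℝ := fun a b c d => f a * f b * f c * f d *
    dot (Yv m (x a) (x c)) (Yv m (x d) (x b)) with hF
  have y1 : -(V / 2) ≤ Rs x F := Y_bound x hx p hp h1 m hm
  have y2 : -(V / 2) ≤ Rs x fun a b c d => F a b d c := by rw [Rs_swap]; exact y1
  have main : Rs x (fun a b c d => (6 - 2 * V ^ 2) * (f a * f b * f c * f d) + 2 * F a b c d +
      2 * F a b d c + (-(9 / 2)) * (g a * f b * g c * f d + g a * f b * f c * g d +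
        f a * g b * g c * f d + f a * g b * f c * g d)) ≤
      ∑ i, (K x (fun a => p a * (1 + (x a i - m i))) + K x (fun a => p a * (1 - (x a i - m i)))) := by
    simp only [Fin.sum_univ_three, K, ← Rs_add]
    refine Rs_mono _ _ _ fun a b c d h hac had => ?_
    have q0 : 0 ≤ f a * f b * f c * f d :=
      mul_nonneg (mul_nonneg (mul_nonneg (f0 a) (f0 b)) (f0 c)) (f0 d)
    have r := rect m (x a) (x b) (x c) (x d) V (hn a) (hn b) (hn c) (hn d) h
      (fun e => hac (hx e)) (fun e => had (hx e)) (hab a b) hmm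
    have s : ∀ i, f a * f b * f c * f d *
        (2 + sec (x a i - m i) (x b i - m i) (x c i - m i) (x d i - m i)) ≤
        √(p a * (1 + (x a i - m i))) * √(p b * (1 + (x b i - m i))) *
          √(p c * (1 + (x c i - m i))) * √(p d * (1 + (x d i - m i))) +
        √(p a * (1 - (x a i - m i))) * √(p b * (1 - (x b i - m i))) *
          √(p c * (1 - (x c i - m i))) * √(p d * (1 - (x d i - m i))) := by
      intro i
      have hb : ∀ e, (x e i - m i) ^ 2 ≤ 1 / 16 := fun e => by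
        have := hy e i
        rw [← sq_abs]
        nlinarith [abs_nonneg (x e i - m i)]
      have := mul_le_mul_of_nonneg_left (sqrt_four (x a i - m i) (x b i - m i) (x c i - m i)
        (x d i - m i) _ rfl (by linarith [hb a, hb b, hb c, hb d])) q0
      simp only [Real.sqrt_mul (hp _), sec]
      simp only [hf] at this ⊢
      linarith
    have r' := mul_le_mul_of_nonneg_left r q0
    rw [Fin.sum_univ_three] at r'
    have s0 := s 0
    have s1 := s 1
    have s2 := s 2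
    simp only [hF, hg, hu]
    linarith
  simp only [Rs_add, Rs_mul] at main
  have t6 : Rs x (fun a b c d => f a * f b * f c * f d) = K x p := rfl
  rw [t6] at main
  have t7 : V ^ 2 * K x p ≤ M * L :=
    (mul_le_mul_of_nonneg_left t5 (sq_nonneg _)).trans (mul_le_mul_of_nonneg_right hVM hL0)
  linarith

end Pool.Agent.Lib.MP_b2463a_co.Log
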