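import Mathlib
import Pool.Agent.Lib.MP_b2463a_co.Log.Second

namespace Pool.Agent.Lib.MP_b2463a_co.Log

open Finset

variable {ι : Type*} [Fintype ι]

open Classical in
/-- tail functional of one coordinate. -/
noncomputable def Gf (ξ : ι → ℝ) (lo h : ℝ) (N : ℕ) (p : ι → ℝ) : ℝ :=
  ∑ j ∈ range N, h * √(∑ a, if lo + (j + 1) * h ≤ ξ a then p a else 0)

lemma Gf_nonneg (ξ : ι → ℝ) (lo h : ℝ) (N : ℕ) (p : ι → ℝ) (hh : 0 ≤ h) : 0 ≤ Gf ξ lo h N p :=
  Finset.sum_nonneg fun _ _ => mul_nonneg hh (Real.sqrt_nonneg _)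

open Classical in
lemma tail_le (Q : ι → Prop) (p : ι → ℝ) (hp : ∀ a, 0 ≤ p a) (h1 : ∑ a, p a = 1) :
    (∑ a, if Q a then p a else 0) ≤ 1 := by
  rw [← h1]
  refine Finset.sum_le_sum fun a _ => ?_
  split_ifs
  · exact le_rfl
  · exact hp a

lemma Gf_le (ξ : ι → ℝ) (lo h : ℝ) (N : ℕ) (p : ι → ℝ) (hh : 0 ≤ h) (hp : ∀ a, 0 ≤ p a)
    (h1 : ∑ a, p a = 1) : Gf ξ lo h N p ≤ N * h := by
  unfold Gf
  calc _ ≤ ∑ _j ∈ range N, h := Finset.sum_le_sum fun j _ =>
        mul_le_of_le_one_right hh (Real.sqrt_le_one.2 (tail_le _ p hp h1))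
    _ = N * h := by simp

open Classical in
lemma tail_gain (Q : ι → Prop) (p t : ι → ℝ) (hp : ∀ a, 0 ≤ p a) (h1 : ∑ a, p a = 1)
    (ht : ∀ a, |t a| ≤ 1) (σ : ℝ) (h0 : 0 ≤ σ) (hσ : σ ≤ 1) (h : σ = 0 ∨ ∀ a, Q a → σ ≤ t a) :
    √(∑ a, if Q a then p a * (1 + t a) else 0) + √(∑ a, if Q a then p a * (1 - t a) else 0) ≤
      2 * √(∑ a, if Q a then p a else 0) - σ ^ 2 * (∑ a, if Q a then p a else 0) / 4 := by
  have e1 : (∑ a, if Q a then p a * (1 + t a) else 0) =
      (∑ a, if Q a then p a else 0) + ∑ a, if Q a then p a * t a else 0 := by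
    rw [← Finset.sum_add_distrib]
    refine Finset.sum_congr rfl fun a _ => ?_
    split_ifs <;> ring
  have e2 : (∑ a, if Q a then p a * (1 - t a) else 0) =
      (∑ a, if Q a then p a else 0) - ∑ a, if Q a then p a * t a else 0 := by
    rw [← Finset.sum_sub_distrib]
    refine Finset.sum_congr rfl fun a _ => ?_
    split_ifs <;> ring
  rw [e1, e2]
  refine sqrt_gain _ _ σ (tail_le Q p hp h1) ?_ h0 hσ ?_
  · refine (Finset.abs_sum_le_sum_abs _ _).trans (Finset.sum_le_sum fun a _ => ?_)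
    split_ifs
    · rw [abs_mul, abs_of_nonneg (hp a)]
      exact mul_le_of_le_one_right (hp a) (ht a)
    · simp
  · rcases h with h | h
    · rw [h, zero_mul]; exact abs_nonneg _
    · refine le_trans ?_ (le_abs_self _)
      rw [Finset.mul_sum]
      refine Finset.sum_le_sum fun a _ => ?_
      split_ifs with hq
      · rw [mul_comm]; exact mul_le_mul_of_nonneg_left (h a hq) (hp a)
      · simp

lemma Gf_conc (ξ : ι → ℝ) (lo h : ℝ) (N : ℕ) (p t : ι → ℝ) (hh : 0 ≤ h) (hp : ∀ a, 0 ≤ p a)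
    (h1 : ∑ a, p a = 1) (ht : ∀ a, |t a| ≤ 1) :
    Gf ξ lo h N (fun a => p a * (1 + t a)) + Gf ξ lo h N (fun a => p a * (1 - t a)) ≤
      2 * Gf ξ lo h N p := by
  unfold Gf
  rw [← Finset.sum_add_distrib, Finset.mul_sum]
  refine Finset.sum_le_sum fun j _ => ?_
  have := mul_le_mul_of_nonneg_left (tail_gain (fun a => lo + (j + 1) * h ≤ ξ a) p t hp h1 ht 0
    le_rfl zero_le_one (Or.inl rfl)) hh
  linarith

open Classical in
lemma Gf_gain (ξ : ι → ℝ) (lo h : ℝ) (N : ℕ) (p t : ι → ℝ) (μ : ℝ) (hh : 0 ≤ h)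
    (hp : ∀ a, 0 ≤ p a) (h1 : ∑ a, p a = 1) (ht : ∀ a, |t a| ≤ 1) (hξ : ∀ a, t a = ξ a - μ)
    (hlo : lo ≤ μ) (hhi : ∀ a, ξ a ≤ lo + N * h) (hN : N * h ≤ 1) :
    Gf ξ lo h N (fun a => p a * (1 + t a)) + Gf ξ lo h N (fun a => p a * (1 - t a)) ≤
      2 * Gf ξ lo h N p - (∑ a, p a * (max (t a) 0 ^ 3 / 3 - h * t a ^ 2)) / 4 := by
  have k1 : Gf ξ lo h N (fun a => p a * (1 + t a)) + Gf ξ lo h N (fun a => p a * (1 - t a)) ≤
      2 * Gf ξ lo h N p - (∑ j ∈ range N, h * (max (lo - μ + (j + 1) * h) 0 ^ 2 *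
        ∑ a, if lo + (j + 1) * h ≤ ξ a then p a else 0)) / 4 := by
    unfold Gf
    rw [← Finset.sum_add_distrib, Finset.mul_sum, Finset.sum_div, ← Finset.sum_sub_distrib]
    refine Finset.sum_le_sum fun j hj => ?_
    have hj' : ((j : ℝ) + 1) ≤ N := by exact_mod_cast Finset.mem_range.1 hj
    have := mul_le_mul_of_nonneg_left (tail_gain (fun a => lo + (j + 1) * h ≤ ξ a) p t hp h1 ht
      (max (lo - μ + (j + 1) * h) 0) (le_max_right _ _)
      (max_le (by nlinarith [mul_le_mul_of_nonneg_right hj' hh]) zero_le_one) (by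
        rcases le_total (lo - μ + (j + 1) * h) 0 with c | c
        · exact Or.inl (max_eq_right c)
        · refine Or.inr fun a ha => ?_
          rw [max_eq_left c, hξ a]
          linarith)) hh
    linarith
  have k2 : (∑ a, p a * (max (t a) 0 ^ 3 / 3 - h * t a ^ 2)) ≤
      ∑ j ∈ range N, h * (max (lo - μ + (j + 1) * h) 0 ^ 2 *
        ∑ a, if lo + (j + 1) * h ≤ ξ a then p a else 0) := by
    simp only [Finset.mul_sum]
    rw [Finset.sum_comm]
    refine Finset.sum_le_sum fun a _ => ?_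
    have := mul_le_mul_of_nonneg_left (grid_sum (lo - μ) h (t a) N hh (by linarith)
      (by rw [hξ a]; linarith [hhi a])) (hp a)
    refine this.trans (le_of_eq ?_)
    rw [Finset.mul_sum]
    refine Finset.sum_congr rfl fun j _ => ?_
    have e : lo - μ + (j + 1) * h ≤ t a ↔ lo + (j + 1) * h ≤ ξ a := by
      rw [hξ a]; constructor <;> intro c <;> linarith
    by_cases c : lo + (j + 1) * h ≤ ξ a
    · rw [if_pos c, if_pos (e.2 c)]; ring
    · rw [if_neg c, if_neg (fun c' => c (e.1 c'))]; ring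
  linarith

lemma Gf_cont (ξ : ι → ℝ) (lo h : ℝ) (N : ℕ) : Continuous (Gf ξ lo h N) := by
  unfold Gf
  refine continuous_finsetSum _ fun j _ => continuous_const.mul (Continuous.sqrt
    (continuous_finsetSum _ fun a _ => ?_))
  split_ifs
  · exact continuous_apply a
  · exact continuous_const

lemma K_cont (x : ι → Fin 3 → ℝ) : Continuous (K x) := by
  unfold K Rs
  refine continuous_finsetSum _ fun a _ => continuous_finsetSum _ fun b _ =>
    continuous_finsetSum _ fun c _ => continuous_finsetSum _ fun d _ => ?_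
  split_ifs
  · fun_prop
  · exact continuous_const

/-- entropy. -/
noncomputable def H (p : ι → ℝ) : ℝ := ∑ a, Real.negMulLog (p a)

lemma H_cont : Continuous (H : (ι → ℝ) → ℝ) :=
  continuous_finsetSum _ fun a _ => Real.continuous_negMulLog.comp (continuous_apply a)

lemma H_nonneg (p : ι → ℝ) (hp : ∀ a, 0 ≤ p a) (h1 : ∑ a, p a = 1) : 0 ≤ H p :=
  Finset.sum_nonneg fun a _ => Real.negMulLog_nonneg (hp a)
    (h1 ▸ Finset.single_le_sum (fun b _ => hp b) (Finset.mem_univ a))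

lemma H_le (p : ι → ℝ) (hp : ∀ a, 0 ≤ p a) (h1 : ∑ a, p a = 1) (a0 : ι) :
    H p ≤ Real.log (Fintype.card ι) := by
  have n0 : (0 : ℝ) < Fintype.card ι := by
    exact_mod_cast Fintype.card_pos_iff.2 ⟨a0⟩
  have k : ∀ a, Real.negMulLog (p a) ≤
      Real.log (Fintype.card ι) * p a + (1 / (Fintype.card ι : ℝ) - p a) := by
    intro a
    rcases (hp a).eq_or_lt with c | c
    · rw [← c]; simp
    · have l := Real.one_sub_inv_le_log_of_pos (mul_pos c n0)
      rw [Real.log_mul c.ne' n0.ne'] at l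
      have l2 := mul_le_mul_of_nonneg_left l c.le
      have e : p a * (1 - (p a * Fintype.card ι)⁻¹) = p a - 1 / (Fintype.card ι : ℝ) := by
        field_simp
      rw [e] at l2
      rw [Real.negMulLog]
      linarith
  refine (Finset.sum_le_sum fun a _ => k a).trans (le_of_eq ?_)
  rw [Finset.sum_add_distrib, Finset.sum_sub_distrib, ← Finset.mul_sum, h1, Finset.sum_const,
    Finset.card_univ, nsmul_eq_mul]
  field_simp
  ring

lemma H_second (p t : ι → ℝ) (hp : ∀ a, 0 ≤ p a) (ht : ∀ a, |t a| ≤ 1 / 2) :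
    H (fun a => p a * (1 + t a)) + H (fun a => p a * (1 - t a)) ≤
      2 * H p - (∑ a, p a * t a ^ 2) / 2 := by
  unfold H
  rw [← Finset.sum_add_distrib, Finset.mul_sum, Finset.sum_div, ← Finset.sum_sub_distrib]
  exact Finset.sum_le_sum fun a _ => entropy_gain _ _ (hp a) (ht a)

end Pool.Agent.Lib.MP_b2463a_co.Log
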