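import Mathlib
import Pool.Agent.Lib.MP_b2463a_co.Log.Core

namespace Pool.Agent.Lib.MP_b2463a_co.Log

open Finset

variable {ι : Type*} [Fintype ι]

/-- the sum of the six tail functionals. -/
noncomputable def G (x : ι → Fin 3 → ℝ) (a0 : ι) (h : ℝ) (N : ℕ) (p : ι → ℝ) : ℝ :=
  ∑ i, (Gf (fun a => x a i) (x a0 i - 1 / 200) h N p +
    Gf (fun a => -x a i) (-x a0 i - 1 / 200) h N p)

lemma G_second (x : ι → Fin 3 → ℝ) (a0 : ι) (h : ℝ) (N : ℕ) (hh : 0 ≤ h) (hN : N * h = 1 / 100)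
    (hD : ∀ a i, |x a i - x a0 i| ≤ 1 / 200)
    (p : ι → ℝ) (hp : ∀ a, 0 ≤ p a) (h1 : ∑ a, p a = 1) (m : Fin 3 → ℝ)
    (hm : ∀ i, |m i - x a0 i| ≤ 1 / 200) (hy : ∀ a i, |x a i - m i| ≤ 1 / 200) :
    ∑ i, (G x a0 h N (fun a => p a * (1 + (x a i - m i))) +
      G x a0 h N (fun a => p a * (1 - (x a i - m i)))) ≤
      6 * G x a0 h N p - 50 / 9 * (∑ a, p a * dot (x a - m) (x a - m) ^ 2) +
        h / 2 * (∑ a, p a * dot (x a - m) (x a - m)) := by
  have hy1 : ∀ i a, |x a i - m i| ≤ 1 := fun i a => (hy a i).trans (by norm_num)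
  have c1 := fun k i => Gf_conc (fun a => x a i) (x a0 i - 1 / 200) h N p
    (fun a => x a k - m k) hh hp h1 (hy1 k)
  have c2 := fun k i => Gf_conc (fun a => -x a i) (-x a0 i - 1 / 200) h N p
    (fun a => x a k - m k) hh hp h1 (hy1 k)
  have g1 := fun i => Gf_gain (fun a => x a i) (x a0 i - 1 / 200) h N p
    (fun a => x a i - m i) (m i) hh hp h1 (hy1 i) (fun a => rfl)
    (by linarith [(abs_le.1 (hm i)).1]) (fun a => by linarith [(abs_le.1 (hD a i)).2])
    (by linarith)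
  have g2 := fun i => Gf_gain (fun a => -x a i) (-x a0 i - 1 / 200) h N p
    (fun a => -(x a i - m i)) (-m i) hh hp h1 (fun a => by rw [abs_neg]; exact hy1 i a)
    (fun a => by ring)
    (by linarith [(abs_le.1 (hm i)).2]) (fun a => by linarith [(abs_le.1 (hD a i)).1])
    (by linarith)
  simp only [sub_neg_eq_add, ← sub_eq_add_neg] at g2
  have key : 200 / 9 * (∑ a, p a * dot (x a - m) (x a - m) ^ 2) -
      2 * h * (∑ a, p a * dot (x a - m) (x a - m)) ≤
      ∑ i, ((∑ a, p a * (max (x a i - m i) 0 ^ 3 / 3 - h * (x a i - m i) ^ 2)) +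
        ∑ a, p a * (max (-(x a i - m i)) 0 ^ 3 / 3 - h * (-(x a i - m i)) ^ 2)) := by
    simp only [← Finset.sum_add_distrib]
    rw [Finset.sum_comm, Finset.mul_sum, Finset.mul_sum, ← Finset.sum_sub_distrib]
    refine Finset.sum_le_sum fun a _ => ?_
    have k : ∀ t : ℝ, |t| ≤ 1 / 200 → 200 * t ^ 4 ≤ max t 0 ^ 3 + max (-t) 0 ^ 3 := by
      intro t ht
      obtain ⟨t1, t2⟩ := abs_le.1 ht
      rcases le_total t 0 with c | c
      · rw [max_eq_right c, max_eq_left (by linarith)]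
        have : 0 ≤ (-t) ^ 3 * (1 + 200 * t) := mul_nonneg (pow_nonneg (by linarith) 3) (by linarith)
        nlinarith
      · rw [max_eq_left c, max_eq_right (by linarith)]
        have : 0 ≤ t ^ 3 * (1 - 200 * t) := mul_nonneg (pow_nonneg c 3) (by linarith)
        nlinarith
    have k0 := k _ (hy a 0)
    have k1 := k _ (hy a 1)
    have k2 := k _ (hy a 2)
    have e : dot (x a - m) (x a - m) =
        (x a 0 - m 0) ^ 2 + (x a 1 - m 1) ^ 2 + (x a 2 - m 2) ^ 2 := by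
      simp only [dot, Pi.sub_apply]; ring
    rw [Fin.sum_univ_three, e]
    generalize x a 0 - m 0 = y0 at *
    generalize x a 1 - m 1 = y1 at *
    generalize x a 2 - m 2 = y2 at *
    have k3 : (y0 ^ 2 + y1 ^ 2 + y2 ^ 2) ^ 2 ≤ 3 * (y0 ^ 4 + y1 ^ 4 + y2 ^ 4) := by
      nlinarith [sq_nonneg (y0 ^ 2 - y1 ^ 2), sq_nonneg (y0 ^ 2 - y2 ^ 2),
        sq_nonneg (y1 ^ 2 - y2 ^ 2)]
    have k4 : 200 / 9 * (y0 ^ 2 + y1 ^ 2 + y2 ^ 2) ^ 2 ≤
        ((max y0 0 ^ 3 + max (-y0) 0 ^ 3) + (max y1 0 ^ 3 + max (-y1) 0 ^ 3) +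
          (max y2 0 ^ 3 + max (-y2) 0 ^ 3)) / 3 := by linarith
    have := mul_le_mul_of_nonneg_left k4 (hp a)
    linarith
  simp only [G, Fin.sum_univ_three] at key ⊢
  linarith [c1 0 1, c1 0 2, c1 1 0, c1 1 2, c1 2 0, c1 2 1, c2 0 1, c2 0 2, c2 1 0, c2 1 2,
    c2 2 0, c2 2 1, g1 0, g1 1, g1 2, g2 0, g2 1, g2 2]

lemma K_le (x : ι → Fin 3 → ℝ) (hx : Function.Injective x) (hn : ∀ a, dot (x a) (x a) = 1)
    (hD : ∀ a b i, |x a i - x b i| ≤ 1 / 200) (L : ℝ) (hL0 : 0 ≤ L)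
    (hL : ∀ g : ι → ℝ, (∀ a, 0 ≤ g a) → E x g g g g ≤ L * (∑ a, g a ^ 2) ^ 2)
    (r : ι → ℝ) (hr : r ∈ stdSimplex ℝ ι) :
    K x r ≤ 6 * Real.log (Fintype.card ι) + L / 2 := by
  have a0 : ι := Classical.choice (by
    by_contra c
    rw [not_nonempty_iff] at c
    have := hr.2
    simp at this)
  obtain ⟨N, hN⟩ := exists_nat_gt L
  have N0 : (0 : ℝ) < N := hL0.trans_lt hN
  set h : ℝ := 1 / (100 * N) with hh
  have h0 : 0 ≤ h := by positivity
  have hNh : N * h = 1 / 100 := by rw [hh]; field_simp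
  have hLh : L * h ≤ 1 / 100 := hNh ▸ mul_le_mul_of_nonneg_right hN.le h0
  have Gc : Continuous (G x a0 h N) :=
    continuous_finsetSum _ fun i _ => (Gf_cont _ _ _ _).add (Gf_cont _ _ _ _)
  obtain ⟨p, ⟨hp, h1⟩, hmax⟩ := (isCompact_stdSimplex ℝ ι).exists_isMaxOn ⟨r, hr⟩
    (f := fun p => K x p - 6 * H p - 18 / 5 * L * G x a0 h N p)
    (((K_cont x).sub (continuous_const.mul H_cont)).sub (continuous_const.mul Gc)).continuousOn
  set m : Fin 3 → ℝ := fun i => ∑ a, p a * x a i with hm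
  have hm0 : ∀ i, ∑ a, p a * (x a i - m i) = 0 := by
    intro i
    simp only [mul_sub, Finset.sum_sub_distrib, ← Finset.sum_mul, h1, hm]
    ring
  have hy : ∀ a i, |x a i - m i| ≤ 1 / 200 := by
    intro a i
    have e : x a i - m i = ∑ b, p b * (x a i - x b i) := by
      simp only [mul_sub, Finset.sum_sub_distrib, ← Finset.sum_mul, h1, hm]
      ring
    rw [e]
    refine (Finset.abs_sum_le_sum_abs _ _).trans ?_
    calc _ ≤ ∑ b, p b * (1 / 200) := Finset.sum_le_sum fun b _ => by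
          rw [abs_mul, abs_of_nonneg (hp b)]
          exact mul_le_mul_of_nonneg_left (hD a b i) (hp b)
      _ = 1 / 200 := by rw [← Finset.sum_mul, h1, one_mul]
  have hab : ∀ a b, dot (x a - x b) (x a - x b) ≤ 2 := by
    intro a b
    have k : ∀ i, (x a i - x b i) * (x a i - x b i) ≤ 1 / 2 := fun i => by
      obtain ⟨c1, c2⟩ := abs_le.1 (hD a b i)
      nlinarith
    simp only [dot, Pi.sub_apply]
    linarith [k 0, k 1, k 2]
  have s1 := K_second x hx hn hab p hp h1 m hm0 (fun a i => (hy a i).trans (by norm_num)) L hL0 hL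
  have s2 := G_second x a0 h N h0 hNh (fun a i => hD a a0 i) p hp h1 m
    (fun i => by rw [abs_sub_comm]; exact hy a0 i) hy
  have s3 := fun i => H_second p (fun a => x a i - m i) hp (fun a => (hy a i).trans (by norm_num))
  have m1 : ∀ i, (fun a => p a * (1 + (x a i - m i))) ∈ stdSimplex ℝ ι := fun i =>
    ⟨fun a => mul_nonneg (hp a) (by linarith [(abs_le.1 (hy a i)).1]), by
      simp only [mul_add, mul_one, Finset.sum_add_distrib, h1, hm0, add_zero]⟩
  have m2 : ∀ i, (fun a => p a * (1 - (x a i - m i))) ∈ stdSimplex ℝ ι := fun i =>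
    ⟨fun a => mul_nonneg (hp a) (by linarith [(abs_le.1 (hy a i)).2]), by
      simp only [mul_one_sub, Finset.sum_sub_distrib, h1, hm0, sub_zero]⟩
  have x1 := fun i => isMaxOn_iff.1 hmax _ (m1 i)
  have x2 := fun i => isMaxOn_iff.1 hmax _ (m2 i)
  set V := ∑ a, p a * dot (x a - m) (x a - m) with hV
  have V0 : 0 ≤ V := Finset.sum_nonneg fun a _ => mul_nonneg (hp a) (dot_self_nonneg _)
  have eV : (∑ a, p a * (x a 0 - m 0) ^ 2) + (∑ a, p a * (x a 1 - m 1) ^ 2) +
      (∑ a, p a * (x a 2 - m 2) ^ 2) = V := by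
    rw [hV]
    simp only [← Finset.sum_add_distrib]
    refine Finset.sum_congr rfl fun a _ => ?_
    simp only [dot, Pi.sub_apply]; ring
  have s2' := mul_le_mul_of_nonneg_left s2 hL0
  have s4 := mul_le_mul_of_nonneg_right hLh V0
  have V1 : V ≤ 0 := by
    simp only [Fin.sum_univ_three] at s1 s2'
    linarith [s3 0, s3 1, s3 2, x1 0, x1 1, x1 2, x2 0, x2 1, x2 2]
  have pz : ∀ a, p a = 0 ∨ x a = m := by
    intro a
    have := (Finset.sum_eq_zero_iff_of_nonneg
      (fun a _ => mul_nonneg (hp a) (dot_self_nonneg (x a - m)))).1 (le_antisymm V1 V0) a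
      (Finset.mem_univ a)
    rcases mul_eq_zero.1 this with c | c
    · exact Or.inl c
    · refine Or.inr ?_
      by_contra c'
      exact (dot_self_pos _ (sub_ne_zero.2 c')).ne' c
  have K0 : K x p ≤ 0 := by
    have := Rs_mono x (fun a b c d => √(p a) * √(p b) * √(p c) * √(p d))
      (fun a b c d => 0 * 0) (fun a b c d _ hac _ => by
        rcases pz a with e | e
        · simp [e]
        · rcases pz c with e' | e'
          · simp [e']
          · exact absurd (hx (e.trans e'.symm)) hac)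
    rw [Rs_mul, zero_mul] at this
    exact this
  have G0 : 0 ≤ G x a0 h N p :=
    Finset.sum_nonneg fun i _ => add_nonneg (Gf_nonneg _ _ _ _ _ h0) (Gf_nonneg _ _ _ _ _ h0)
  have G1 : G x a0 h N r ≤ 6 / 100 := by
    have k := fun ξ lo => (Gf_le ξ lo h N r h0 hr.1 hr.2).trans hNh.le
    simp only [G, Fin.sum_univ_three]
    linarith [k (fun a => x a 0) (x a0 0 - 1 / 200), k (fun a => x a 1) (x a0 1 - 1 / 200),
      k (fun a => x a 2) (x a0 2 - 1 / 200), k (fun a => -x a 0) (-x a0 0 - 1 / 200),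
      k (fun a => -x a 1) (-x a0 1 - 1 / 200), k (fun a => -x a 2) (-x a0 2 - 1 / 200)]
  have x3 := isMaxOn_iff.1 hmax r hr
  have H0 := H_nonneg p hp h1
  have H1 := H_le r hr.1 hr.2 a0
  have := mul_nonneg hL0 G0
  have := mul_le_mul_of_nonneg_left G1 hL0
  linarith

lemma step (x : ι → Fin 3 → ℝ) (hx : Function.Injective x) (hn : ∀ a, dot (x a) (x a) = 1)
    (hD : ∀ a b i, |x a i - x b i| ≤ 1 / 200) (L : ℝ) (hL0 : 0 ≤ L)
    (hL : ∀ g : ι → ℝ, (∀ a, 0 ≤ g a) → E x g g g g ≤ L * (∑ a, g a ^ 2) ^ 2)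
    (g : ι → ℝ) (hg : ∀ a, 0 ≤ g a) :
    E x g g g g ≤ (6 * Real.log (Fintype.card ι) + 2 + L / 2) * (∑ a, g a ^ 2) ^ 2 := by
  set A := ∑ a, g a ^ 2 with hA
  have A0 : 0 ≤ A := Finset.sum_nonneg fun a _ => sq_nonneg _
  rcases A0.eq_or_lt with c | c
  · have := hL g hg
    rw [← hA, ← c] at this
    rw [← c]
    simpa using this
  · have hr : (fun a => g a ^ 2 / A) ∈ stdSimplex ℝ ι :=
      ⟨fun a => by positivity, by rw [← Finset.sum_div, ← hA, div_self c.ne']⟩
    have k := K_le x hx hn hD L hL0 hL _ hr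
    have e : Rs x (fun a b c d => g a * g b * g c * g d) = A ^ 2 * K x fun a => g a ^ 2 / A := by
      rw [K, ← Rs_mul]
      congr 1
      funext a b c' d
      have r2 : √A ^ 2 = A := Real.sq_sqrt A0
      have r0 : 0 < √A := Real.sqrt_pos.2 c
      simp only [Real.sqrt_div (sq_nonneg _), Real.sqrt_sq (hg _)]
      generalize √A = s at r2 r0
      rw [← r2]
      field_simp
    have := E_le_Rs x hx g
    rw [e, ← hA] at this
    nlinarith [mul_le_mul_of_nonneg_left k (sq_nonneg A)]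

lemma E_triv (x : ι → Fin 3 → ℝ) (g : ι → ℝ) :
    E x g g g g ≤ (Fintype.card ι : ℝ) ^ 4 * (∑ a, g a ^ 2) ^ 2 := by
  set A := ∑ a, g a ^ 2 with hA
  have k : ∀ a, g a ^ 2 ≤ A := fun a =>
    Finset.single_le_sum (f := fun a => g a ^ 2) (fun b _ => sq_nonneg _) (Finset.mem_univ a)
  have k2 : ∀ a b, |g a * g b| ≤ A := fun a b =>
    abs_le.2 ⟨by nlinarith [k a, k b, sq_nonneg (g a + g b)],
      by nlinarith [k a, k b, sq_nonneg (g a - g b)]⟩
  unfold E
  calc _ ≤ ∑ _a : ι, ∑ _b : ι, ∑ _c : ι, ∑ _d : ι, A ^ 2 := by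
        refine Finset.sum_le_sum fun a _ => Finset.sum_le_sum fun b _ =>
          Finset.sum_le_sum fun c _ => Finset.sum_le_sum fun d _ => ?_
        split_ifs
        · rw [mul_assoc, sq]
          refine (le_abs_self _).trans ?_
          rw [abs_mul]
          exact mul_le_mul (k2 a b) (k2 c d) (abs_nonneg _) ((abs_nonneg _).trans (k2 a b))
        · exact sq_nonneg _
    _ = _ := by
        simp only [Finset.sum_const, Finset.card_univ, nsmul_eq_mul]; ring

theorem core (x : ι → Fin 3 → ℝ) (hx : Function.Injective x) (hn : ∀ a, dot (x a) (x a) = 1)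
    (hD : ∀ a b i, |x a i - x b i| ≤ 1 / 200) (g : ι → ℝ) (hg : ∀ a, 0 ≤ g a) :
    E x g g g g ≤ (12 * Real.log (Fintype.card ι) + 5) * (∑ a, g a ^ 2) ^ 2 := by
  have l0 : 0 ≤ Real.log (Fintype.card ι) := Real.log_natCast_nonneg _
  have k : ∀ j : ℕ, ∀ g : ι → ℝ, (∀ a, 0 ≤ g a) → E x g g g g ≤
      (12 * Real.log (Fintype.card ι) + 4 + (Fintype.card ι : ℝ) ^ 4 / 2 ^ j) *
        (∑ a, g a ^ 2) ^ 2 := by
    intro j
    induction j with
    | zero =>
      intro g _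
      refine (E_triv x g).trans (mul_le_mul_of_nonneg_right ?_ (sq_nonneg _))
      rw [pow_zero, div_one]; linarith
    | succ j ih =>
      intro g hg
      refine (step x hx hn hD _ (by positivity) ih g hg).trans (le_of_eq ?_)
      rw [pow_succ (2 : ℝ) j]
      field_simp
      ring
  obtain ⟨j, hj⟩ := pow_unbounded_of_one_lt ((Fintype.card ι : ℝ) ^ 4) (one_lt_two (α := ℝ))
  refine (k j g hg).trans (mul_le_mul_of_nonneg_right ?_ (sq_nonneg _))
  have := (div_le_one (by positivity)).2 hj.le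
  linarith

end Pool.Agent.Lib.MP_b2463a_co.Log
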