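import Mathlib
import Pool.Agent.Lib.MP_b2463a_co.Log.Max

namespace Pool.Agent.Lib.MP_b2463a_co.Log

open Finset

lemma E_sum {ι V T : Type*} [Fintype ι] [AddCommGroup V] (x : ι → V) (s : Finset T)
    (f : T → ι → ℝ) (g : ι → ℝ) :
    E x (fun a => ∑ k ∈ s, f k a) g g g = ∑ k ∈ s, E x (f k) g g g := by
  unfold E
  rw [Finset.sum_comm (s := s)]
  refine Finset.sum_congr rfl fun a _ => ?_
  rw [Finset.sum_comm (s := s)]
  refine Finset.sum_congr rfl fun b _ => ?_
  rw [Finset.sum_comm (s := s)]
  refine Finset.sum_congr rfl fun c _ => ?_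
  rw [Finset.sum_comm (s := s)]
  refine Finset.sum_congr rfl fun d _ => ?_
  split_ifs
  · simp only [Finset.sum_mul]
  · simp

lemma E_comp {ι κ V : Type*} [Fintype ι] [Fintype κ] [AddCommGroup V] (x : ι → V) (j : κ → ι)
    (hj : Function.Injective j) (f : ι → ℝ) (hf : ∀ a ∉ Set.range j, f a = 0) :
    E (fun a => x (j a)) (fun a => f (j a)) (fun a => f (j a)) (fun a => f (j a))
      (fun a => f (j a)) = E x f f f f := by
  unfold E
  refine Fintype.sum_of_injective j hj _ _ (fun a ha => by simp [hf a ha]) fun a => ?_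
  refine Fintype.sum_of_injective j hj _ _ (fun a ha => by simp [hf a ha]) fun b => ?_
  refine Fintype.sum_of_injective j hj _ _ (fun a ha => by simp [hf a ha]) fun c => ?_
  exact Fintype.sum_of_injective j hj _ _ (fun a ha => by simp [hf a ha]) fun d => rfl

open Classical in
lemma cover {ι V K : Type*} [Fintype ι] [AddCommGroup V] (x : ι → V) (cell : ι → K) (T : Finset K)
    (mT : ∀ a, cell a ∈ T) (hT : (0 : ℝ) < T.card) (M : ℝ) (M0 : 0 ≤ M)
    (hk : ∀ k, E x (fun a => if cell a = k then 1 else 0) (fun a => if cell a = k then 1 else 0)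
      (fun a => if cell a = k then 1 else 0) (fun a => if cell a = k then 1 else 0) ≤ M) :
    E x (fun _ => 1) (fun _ => 1) (fun _ => 1) (fun _ => 1) ≤ 16 * (T.card : ℝ) ^ 4 * M := by
  set e := E x (fun _ => 1) (fun _ => 1) (fun _ => 1) (fun _ => 1) with he
  have e0 : 0 ≤ e := E_nonneg _ _ _
  by_contra hc
  have hc' := (not_le.1 hc).le
  have s1 : e = ∑ k ∈ T, E x (fun a => if cell a = k then 1 else 0)
      (fun _ => 1) (fun _ => 1) (fun _ => 1) := by
    rw [← E_sum, he]
    congr 1
    funext a
    simp [mT a]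
  have s2 : ∀ k, E x (fun a => if cell a = k then 1 else 0) (fun _ => 1) (fun _ => 1)
      (fun _ => 1) ≤ e / (2 * T.card) := by
    intro k
    refine E_le x _ _ _ _ M e e e M0 e0 e0 (hk k) le_rfl le_rfl le_rfl _ (by positivity) ?_
    rw [div_pow, le_div_iff₀ (by positivity)]
    have := mul_le_mul_of_nonneg_right hc' (pow_nonneg e0 3)
    linarith
  have s3 : e ≤ T.card * (e / (2 * T.card)) := by
    rw [← nsmul_eq_mul]
    exact s1.le.trans (Finset.sum_le_card_nsmul _ _ _ fun k _ => s2 k)
  have s4 : (T.card : ℝ) * (e / (2 * T.card)) = e / 2 := by field_simp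
  refine hc ?_
  have : e ≤ 0 := by linarith
  exact this.trans (by positivity)

lemma cells (n : ℕ) : ∃ T : Finset (Fin 3 → ℕ), (T.card : ℝ) = (n : ℝ) ^ 3 ∧
    ∀ k : Fin 3 → ℕ, (∀ i, k i < n) → k ∈ T :=
  ⟨Fintype.piFinset fun _ : Fin 3 => range n, by
    rw [Fintype.card_piFinset]
    simp, fun k hk => Fintype.mem_piFinset.2 fun i => Finset.mem_range.2 (hk i)⟩

open Classical in
theorem sphere {ι : Type*} [Fintype ι] (x : ι → Fin 3 → ℝ) (hx : Function.Injective x)
    (hn : ∀ a, dot (x a) (x a) = 1) :
    E x (fun _ => 1) (fun _ => 1) (fun _ => 1) (fun _ => 1) ≤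
      16 * (401 ^ 3) ^ 4 *
        ((12 * Real.log (Fintype.card ι) + 5) * (Fintype.card ι : ℝ) ^ 2) := by
  set M := (12 * Real.log (Fintype.card ι) + 5) * (Fintype.card ι : ℝ) ^ 2 with hM
  have l0 : 0 ≤ Real.log (Fintype.card ι) := Real.log_natCast_nonneg _
  have M0 : 0 ≤ M := by positivity
  have hb : ∀ a i, -1 ≤ x a i ∧ x a i ≤ 1 := by
    intro a i
    have := hn a
    unfold dot at this
    have k : x a i * x a i ≤ 1 := by
      have q0 := mul_self_nonneg (x a 0)
      have q1 := mul_self_nonneg (x a 1)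
      have q2 := mul_self_nonneg (x a 2)
      fin_cases i
      · simp only [Fin.zero_eta]; linarith
      · simp only [Fin.mk_one]; linarith
      · simp only [Fin.reduceFinMk]; linarith
    constructor <;> nlinarith
  set cell : ι → Fin 3 → ℕ := fun a i => ⌊200 * (x a i + 1)⌋₊ with hcell
  obtain ⟨T, cT, hT⟩ := cells 401
  rw [Nat.cast_ofNat] at cT
  have mT : ∀ a, cell a ∈ T := by
    intro a
    refine hT _ fun i => ?_
    rw [hcell, Nat.floor_lt (by linarith [(hb a i).1])]
    push_cast
    linarith [(hb a i).2]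
  set I : (Fin 3 → ℕ) → ι → ℝ := fun k a => if cell a = k then 1 else 0 with hI
  have hk : ∀ k, E x (I k) (I k) (I k) (I k) ≤ M := by
    intro k
    rw [← E_comp x (Subtype.val : {a // cell a = k} → ι) Subtype.val_injective (I k)
      (fun a ha => by
        have : ¬ cell a = k := fun e => ha ⟨⟨a, e⟩, rfl⟩
        simp [hI, this])]
    have e : (fun a : {a // cell a = k} => I k a) = fun _ => 1 := by
      funext a
      simp [hI, a.2]
    rw [e]
    refine (core (fun a : {a // cell a = k} => x a) (hx.comp Subtype.val_injective)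
      (fun a => hn a) ?_ _ (fun _ => zero_le_one)).trans ?_
    · intro a b i
      have e1 : ⌊200 * (x a i + 1)⌋₊ = ⌊200 * (x b i + 1)⌋₊ :=
        congrFun (a.2.trans b.2.symm) i
      have a1 := Nat.floor_le (show 0 ≤ 200 * (x a i + 1) by linarith [(hb a i).1])
      have a2 := Nat.lt_floor_add_one (200 * (x a i + 1))
      have b1 := Nat.floor_le (show 0 ≤ 200 * (x b i + 1) by linarith [(hb b i).1])
      have b2 := Nat.lt_floor_add_one (200 * (x b i + 1))
      rw [e1] at a1 a2
      rw [abs_le]
      constructor <;> linarith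
    · have c1 : Fintype.card {a // cell a = k} ≤ Fintype.card ι := Fintype.card_subtype_le _
      have c2 : (Fintype.card {a // cell a = k} : ℝ) ≤ Fintype.card ι := by exact_mod_cast c1
      have c3 : Real.log (Fintype.card {a // cell a = k}) ≤ Real.log (Fintype.card ι) := by
        rcases Nat.eq_zero_or_pos (Fintype.card {a // cell a = k}) with c | c
        · rw [c]; simpa using l0
        · exact Real.log_le_log (by exact_mod_cast c) c2
      simp only [one_pow, Finset.sum_const, Finset.card_univ, nsmul_eq_mul, mul_one]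
      exact mul_le_mul (by linarith) (pow_le_pow_left₀ (by positivity) c2 2) (sq_nonneg _)
        (by linarith)
  rw [← cT]
  refine cover x cell T mT (by rw [cT]; norm_num) M M0 fun k => le_of_eq_of_le ?_ (hk k)
  have : (fun a => @ite ℝ (cell a = k) (Classical.propDecidable _) 1 0) = I k := by
    funext a
    by_cases c : cell a = k <;> simp [hI, c]
  rw [this]

open Classical in
theorem main : ∃ C : ℝ, ∀ R : ℝ, 0 < R → ∀ P : Finset (EuclideanSpace ℝ (Fin 3)),
    (∀ p ∈ P, ‖p‖ = R) → 2 ≤ P.card →
    (((P ×ˢ P ×ˢ P ×ˢ P).filter fun q => q.1 + q.2.1 = q.2.2.1 + q.2.2.2).card : ℝ) ≤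
      C * (P.card : ℝ) ^ 2 * Real.log P.card := by
  refine ⟨16 * (401 ^ 3) ^ 4 * 22, fun R hR P hP h2 => ?_⟩
  set x : P → Fin 3 → ℝ := fun a i => a.1 i / R with hx
  have k := sphere x (by
      intro a b h
      refine Subtype.ext (PiLp.ext fun i => ?_)
      have := congrFun h i
      simp only [hx] at this
      exact (div_left_inj' hR.ne').1 this) (by
      intro a
      have := EuclideanSpace.real_norm_sq_eq a.1
      rw [hP a.1 a.2, Fin.sum_univ_three] at this
      simp only [dot, hx]
      field_simp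
      linarith)
  have e : (((P ×ˢ P ×ˢ P ×ˢ P).filter fun q => q.1 + q.2.1 = q.2.2.1 + q.2.2.2).card : ℝ) =
      E x (fun _ => 1) (fun _ => 1) (fun _ => 1) (fun _ => 1) := by
    rw [Finset.card_filter]
    push_cast
    simp only [Finset.sum_product]
    unfold E
    rw [← Finset.sum_coe_sort P]
    refine Finset.sum_congr rfl fun a _ => ?_
    rw [← Finset.sum_coe_sort P]
    refine Finset.sum_congr rfl fun b _ => ?_
    rw [← Finset.sum_coe_sort P]
    refine Finset.sum_congr rfl fun c _ => ?_
    rw [← Finset.sum_coe_sort P]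
    refine Finset.sum_congr rfl fun d _ => ?_
    have : a.1 + b.1 = c.1 + d.1 ↔ x a + x b = x c + x d := by
      constructor
      · intro h
        funext i
        have := congrArg (fun v : EuclideanSpace ℝ (Fin 3) => v i) h
        simp only [PiLp.add_apply] at this
        simp only [hx, Pi.add_apply]
        rw [← add_div, ← add_div, this]
      · intro h
        refine PiLp.ext fun i => ?_
        have := congrFun h i
        simp only [hx, Pi.add_apply] at this
        rw [← add_div, ← add_div] at this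
        simp only [PiLp.add_apply]
        exact (div_left_inj' hR.ne').1 this
    by_cases h : a.1 + b.1 = c.1 + d.1
    · rw [if_pos h, if_pos (this.1 h)]; norm_num
    · rw [if_neg h, if_neg (fun h' => h (this.2 h'))]
  rw [e]
  refine k.trans ?_
  rw [Fintype.card_coe]
  have l : 1 / 2 ≤ Real.log P.card := by
    have : Real.log 2 ≤ Real.log P.card := Real.log_le_log two_pos (by exact_mod_cast h2)
    linarith [Real.log_two_gt_d9]
  have : (12 * Real.log P.card + 5) * (P.card : ℝ) ^ 2 ≤
      (22 * Real.log P.card) * (P.card : ℝ) ^ 2 :=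
    mul_le_mul_of_nonneg_right (by linarith) (sq_nonneg _)
  linarith

end Pool.Agent.Lib.MP_b2463a_co.Log
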